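import Pool.Agent.H390R3.Final
set_option autoImplicit false

namespace Pool.Agent.Results.MP_4d246d_lc.QuasiPoly

open Pool.Agent.H24R2 Pool.Agent.NPC

/-- **The simplex method can be run in quasi-polynomial time.** There are a Turing machine `M` and
a constant `K` such that `M` stops after at most `2 ^ (K * (log N)²)` steps on every input of `N`
bits, and on the code of every rational linear program `max c·x`, `A x ≤ b`, `x ≥ 0` (`m`
inequalities, `n` variables; degenerate or not, bounded or not) together with a vertex `v` of its
polyhedron it writes down the vertices `v₁, …, v_k` visited after `v` by a complete run of the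
simplex method: each of `v, v₁, …, v_k` is joined to the next one by an edge along which the
objective function increases, and `v_k` is optimal or the start of an unbounded edge along which
it increases. Moreover `k ≤ 6 (2n+1)^⌈log₂(m+n+1)⌉`. -/
theorem result :
    ∃ (f : List Bool → List Bool) (K : ℕ)
      (M : Turing.TM2ComputableInTime (id : List Bool → List Bool) (id : List Bool → List Bool) f),
      (∀ N : ℕ, M.time N ≤ 2 ^ (K * (Nat.size N + 1) ^ 2)) ∧
      ∀ (m n : ℕ) (A : Fin m → Fin n → ℚ) (b : Fin m → ℚ) (c v : Fin n → ℚ),
        (fun j => (v j : ℝ)) ∈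
          (Poly (fun i j => (A i j : ℝ)) (fun i => (b i : ℝ))).extremePoints ℝ →
        ∃ l : List (Fin n → ℚ),
          f (bits ((List.ofFn fun i => List.ofFn (A i)),
            (List.ofFn b, (List.ofFn c, List.ofFn v)))) = bits (l.map List.ofFn) ∧
          SimplexRun (Poly (fun i j => (A i j : ℝ)) (fun i => (b i : ℝ))) (fun j => (c j : ℝ))
            (fun j => (v j : ℝ)) (l.map fun p j => (p j : ℝ)) ∧
          l.length ≤ 6 * (2 * n + 1) ^ Nat.size (m + n) := by
  obtain ⟨K, M, hM⟩ := Pool.Agent.H390R3.exists_machine
  exact ⟨_, K, M, hM, fun m n A b c v hv => Pool.Agent.H390R3.ff_run A b c v hv⟩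

end Pool.Agent.Results.MP_4d246d_lc.QuasiPoly
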